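import Mathlib
open Finset
namespace Pool.Agent.H576.Pyth

theorem tailS (g : ℕ → ℝ) (hg : Summable g) (ε : ℝ) (hε : 0 < ε) :
    ∃ N : ℕ, ∀ F : Finset ℕ, (∀ p ∈ F, N ≤ p) → ∑ p ∈ F, g p < ε := by
  obtain ⟨s, hs⟩ := summable_iff_vanishing_norm.1 hg ε hε
  refine ⟨s.sup id + 1, fun F hF => ?_⟩
  have hd : Disjoint F s := by
    rw [Finset.disjoint_left]
    intro a ha has
    have h1 := hF a ha
    have h2 : a ≤ s.sup id := Finset.le_sup (f := id) has
    omega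
  have := hs F hd
  rw [Real.norm_eq_abs] at this
  exact lt_of_le_of_lt (le_abs_self _) this

theorem cardCong (p X : ℕ) (hp : 0 < p) (A : Finset ℕ) (hA : A ⊆ range X)
    (h : ∀ a ∈ A, ∀ b ∈ A, a ≡ b [MOD p]) : (A.card : ℝ) ≤ (X : ℝ) / p + 1 := by
  rcases A.eq_empty_or_nonempty with rfl | ⟨a, ha⟩
  · simp; positivity
  · have h1 : A ⊆ (range X).filter (fun t => t ≡ a [MOD p]) := by
      intro b hb
      rw [mem_filter]
      exact ⟨hA hb, h b hb a ha⟩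
    have h2 : A.card ≤ X / p + 1 := by
      refine (card_le_card h1).trans ?_
      rw [← Nat.count_eq_card_filter_range, Nat.count_modEq_card _ hp]
      split_ifs <;> omega
    calc (A.card : ℝ) ≤ ((X / p + 1 : ℕ) : ℝ) := by exact_mod_cast h2
      _ ≤ (X : ℝ) / p + 1 := by
        push_cast
        have := @Nat.cast_div_le ℝ _ _ _ X p
        linarith

theorem cardFib1 (p X : ℕ) (hp : 0 < p) (B : Finset (ℕ × ℕ)) (hB : B ⊆ range X ×ˢ range X)
    (h : ∀ a ∈ B, ∀ b ∈ B, a.2 = b.2 → a.1 ≡ b.1 [MOD p]) :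
    (B.card : ℝ) ≤ X * ((X : ℝ) / p + 1) := by
  have h1 : B.card = ∑ v ∈ range X, (B.filter (fun a => a.2 = v)).card := by
    apply card_eq_sum_card_fiberwise
    intro a ha
    have := hB ha
    simp only [mem_product] at this
    exact mem_coe.2 this.2
  rw [h1]
  push_cast
  calc ∑ v ∈ range X, ((B.filter (fun a => a.2 = v)).card : ℝ) ≤ ∑ v ∈ range X, ((X : ℝ) / p + 1) := by
        apply sum_le_sum
        intro v _
        have h2 : (B.filter (fun a => a.2 = v)).card = ((B.filter (fun a => a.2 = v)).image Prod.fst).card := by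
          rw [card_image_of_injOn]
          intro a ha b hb hab
          simp only [coe_filter, Set.mem_ofPred_eq] at ha hb
          exact Prod.ext hab (ha.2.trans hb.2.symm)
        rw [h2]
        apply cardCong p X hp
        · intro t ht
          rw [mem_image] at ht
          obtain ⟨a, ha, rfl⟩ := ht
          exact (mem_product.1 (hB (mem_filter.1 ha).1)).1
        · intro t ht t' ht'
          rw [mem_image] at ht ht'
          obtain ⟨a, ha, rfl⟩ := ht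
          obtain ⟨b, hb, rfl⟩ := ht'
          rw [mem_filter] at ha hb
          exact h a ha.1 b hb.1 (ha.2.trans hb.2.symm)
    _ = X * ((X : ℝ) / p + 1) := by
        rw [sum_const, card_range, nsmul_eq_mul]

theorem cardFib2 (p X : ℕ) (hp : 0 < p) (B : Finset (ℕ × ℕ)) (hB : B ⊆ range X ×ˢ range X)
    (h : ∀ a ∈ B, ∀ b ∈ B, a.1 = b.1 → a.2 ≡ b.2 [MOD p]) :
    (B.card : ℝ) ≤ X * ((X : ℝ) / p + 1) := by
  have h1 : B.card = (B.image Prod.swap).card := by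
    rw [card_image_of_injective _ Prod.swap_injective]
  rw [h1]
  apply cardFib1 p X hp
  · intro a ha
    rw [mem_image] at ha
    obtain ⟨b, hb, rfl⟩ := ha
    have := mem_product.1 (hB hb)
    exact mem_product.2 ⟨this.2, this.1⟩
  · intro a ha b hb hab
    rw [mem_image] at ha hb
    obtain ⟨a', ha', rfl⟩ := ha
    obtain ⟨b', hb', rfl⟩ := hb
    exact h a' ha' b' hb' hab

/-- the box count -/
theorem cardBox (p X c K : ℕ) (hc : 0 < c) (hpc : 1 + c ^ 2 ≤ p) (hpK : p ≤ K * X ^ 2)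
    (B : Finset (ℕ × ℕ)) (hB : B ⊆ range X ×ˢ range X)
    (h : ∀ a ∈ B, ∀ b ∈ B, (p : ℤ) ∣ ((a.1 : ℤ) - b.1) ^ 2 + (c : ℤ) ^ 2 * ((a.2 : ℤ) - b.2) ^ 2) :
    (B.card : ℝ) ≤ (8 * (1 + c ^ 2) + 2 * K) * X ^ 2 / p := by
  set s := Nat.sqrt (p / (1 + c ^ 2)) with hs
  have hc0 : 0 < 1 + c ^ 2 := by positivity
  have hp0 : 0 < p := by omega
  have hq1 : 1 ≤ p / (1 + c ^ 2) := (Nat.le_div_iff_mul_le hc0).2 (by omega)
  have hs1 : 1 ≤ s := by
    rw [hs]
    exact Nat.sqrt_pos.2 hq1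
  have hs2 : s * s ≤ p / (1 + c ^ 2) := Nat.sqrt_le _
  have hs3 : (1 + c ^ 2) * (s * s) ≤ p := by
    calc (1 + c ^ 2) * (s * s) ≤ (1 + c ^ 2) * (p / (1 + c ^ 2)) := Nat.mul_le_mul_left _ hs2
      _ ≤ p := Nat.mul_div_le _ _
  have hs4 : p / (1 + c ^ 2) < (s + 1) * (s + 1) := Nat.lt_succ_sqrt _
  have hs5 : p < (1 + c ^ 2) * ((s + 1) * (s + 1)) := by
    have := (Nat.div_lt_iff_lt_mul hc0).1 hs4
    linarith [this, mul_comm ((s + 1) * (s + 1)) (1 + c ^ 2)]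
  have hs6 : (p : ℝ) ≤ 4 * (1 + c ^ 2) * s ^ 2 := by
    have h1 : (1 + c ^ 2) * ((s + 1) * (s + 1)) ≤ (1 + c ^ 2) * ((2 * s) * (2 * s)) := by
      apply Nat.mul_le_mul_left
      apply Nat.mul_le_mul <;> omega
    have h2 : p ≤ (1 + c ^ 2) * ((2 * s) * (2 * s)) := by omega
    have h3 : (p : ℝ) ≤ (1 + (c:ℝ) ^ 2) * ((2 * s) * (2 * s)) := by exact_mod_cast h2
    nlinarith [h3]
  -- injectivity
  have hinj : Set.InjOn (fun a : ℕ × ℕ => (a.1 / s, a.2 / s)) (B : Set (ℕ × ℕ)) := by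
    intro a ha b hb hab
    simp only [Prod.mk.injEq] at hab
    have hd1 : |(a.1 : ℤ) - b.1| < s := by
      have e1 := Nat.div_add_mod a.1 s
      have e2 := Nat.div_add_mod b.1 s
      have l1 := Nat.mod_lt a.1 (show 0 < s by omega)
      have l2 := Nat.mod_lt b.1 (show 0 < s by omega)
      rw [hab.1] at e1
      rw [abs_lt]
      constructor <;> (zify at e1 e2 l1 l2; omega)
    have hd2 : |(a.2 : ℤ) - b.2| < s := by
      have e1 := Nat.div_add_mod a.2 s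
      have e2 := Nat.div_add_mod b.2 s
      have l1 := Nat.mod_lt a.2 (show 0 < s by omega)
      have l2 := Nat.mod_lt b.2 (show 0 < s by omega)
      rw [hab.2] at e1
      rw [abs_lt]
      constructor <;> (zify at e1 e2 l1 l2; omega)
    have hsq1 : ((a.1 : ℤ) - b.1) ^ 2 < s ^ 2 := by
      rw [← sq_abs]; exact pow_lt_pow_left₀ hd1 (abs_nonneg _) (by norm_num)
    have hsq2 : ((a.2 : ℤ) - b.2) ^ 2 < s ^ 2 := by
      rw [← sq_abs]; exact pow_lt_pow_left₀ hd2 (abs_nonneg _) (by norm_num)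
    have hlt : ((a.1 : ℤ) - b.1) ^ 2 + (c : ℤ) ^ 2 * ((a.2 : ℤ) - b.2) ^ 2 < p := by
      have h1 : (c : ℤ) ^ 2 * ((a.2 : ℤ) - b.2) ^ 2 ≤ (c : ℤ) ^ 2 * s ^ 2 := by
        apply mul_le_mul_of_nonneg_left hsq2.le (by positivity)
      have h2 : (1 + (c:ℤ) ^ 2) * ((s:ℤ) * s) ≤ p := by exact_mod_cast hs3
      nlinarith [h1, h2, hsq1]
    have h0 : ((a.1 : ℤ) - b.1) ^ 2 + (c : ℤ) ^ 2 * ((a.2 : ℤ) - b.2) ^ 2 = 0 := by
      apply Int.eq_zero_of_dvd_of_nonneg_of_lt _ hlt (h a ha b hb)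
      positivity
    have hcz : (0:ℤ) < (c:ℤ) ^ 2 := by positivity
    have z1 : ((a.1 : ℤ) - b.1) ^ 2 = 0 := by
      have := mul_nonneg hcz.le (sq_nonneg ((a.2 : ℤ) - b.2))
      have := sq_nonneg ((a.1 : ℤ) - b.1)
      linarith
    have z2 : ((a.2 : ℤ) - b.2) ^ 2 = 0 := by
      have h5 : (c : ℤ) ^ 2 * ((a.2 : ℤ) - b.2) ^ 2 = 0 := by linarith
      rcases mul_eq_zero.1 h5 with h6 | h6
      · omega
      · exact h6
    have z3 := pow_eq_zero_iff (two_ne_zero) |>.1 z1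
    have z4 := pow_eq_zero_iff (two_ne_zero) |>.1 z2
    exact Prod.ext (by omega) (by omega)
  have hcard : B.card ≤ (X / s + 1) * (X / s + 1) := by
    rw [← card_image_of_injOn hinj]
    calc _ ≤ (range (X / s + 1) ×ˢ range (X / s + 1)).card := by
          apply card_le_card
          intro a ha
          rw [mem_image] at ha
          obtain ⟨b, hb, rfl⟩ := ha
          have := mem_product.1 (hB hb)
          rw [mem_range, mem_range] at this
          rw [mem_product, mem_range, mem_range]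
          exact ⟨Nat.lt_succ_of_le (Nat.div_le_div_right this.1.le), Nat.lt_succ_of_le (Nat.div_le_div_right this.2.le)⟩
      _ = _ := by rw [card_product, card_range]
  have hs0 : (0:ℝ) < s := by exact_mod_cast hs1
  have hp1 : (0:ℝ) < p := by exact_mod_cast hp0
  have hr1 : (B.card : ℝ) ≤ ((X:ℝ) / s + 1) ^ 2 := by
    have h1 : (B.card : ℝ) ≤ ((X / s : ℕ) + 1 : ℝ) * ((X / s : ℕ) + 1) := by exact_mod_cast hcard
    have h2 : ((X / s : ℕ) : ℝ) ≤ (X:ℝ) / s := Nat.cast_div_le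
    have h3 : (0:ℝ) ≤ ((X / s : ℕ) : ℝ) := by positivity
    nlinarith
  have hr2 : ((X:ℝ) / s + 1) ^ 2 ≤ 2 * ((X:ℝ) ^ 2 / s ^ 2) + 2 := by
    have : ((X:ℝ) ^ 2 / s ^ 2) = ((X:ℝ) / s) ^ 2 := by rw [div_pow]
    rw [this]
    nlinarith [sq_nonneg ((X:ℝ) / s - 1)]
  have hr3 : (X:ℝ) ^ 2 / s ^ 2 ≤ 4 * (1 + c ^ 2) * X ^ 2 / p := by
    rw [div_le_div_iff₀ (by positivity) hp1]
    nlinarith [mul_le_mul_of_nonneg_left hs6 (show (0:ℝ) ≤ (X:ℝ) ^ 2 by positivity)]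
  have hr4 : (2:ℝ) ≤ 2 * K * X ^ 2 / p := by
    rw [le_div_iff₀ hp1]
    have : (p : ℝ) ≤ K * X ^ 2 := by exact_mod_cast hpK
    linarith
  have hr5 : (8 * (1 + (c:ℝ) ^ 2) + 2 * K) * X ^ 2 / p = 2 * (4 * (1 + c ^ 2) * X ^ 2 / p) + 2 * K * X ^ 2 / p := by
    ring
  rw [hr5]
  linarith

end Pool.Agent.H576.Pyth
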