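import Pool.Agent.H576P.Count
open Finset
open Pool.Agent.H576.Pyth
namespace Pool.Agent.H576.Lin

theorem lin (S : Set ℕ) (hS : ∀ p ∈ S, p.Prime) (G : ℕ → ℝ) (hgS : ∀ p ∈ S, G p = 1 / p)
    (hsum : Summable G) (L : Finset (ℕ × ℕ)) (y : ℕ)
    (h1 : ∀ q ∈ L, ∀ p ∈ S, p ≤ y → p ∣ q.2 ∧ ¬ p ∣ q.1)
    (h2 : ∀ q ∈ L, 0 < q.1 ∧ ∀ p ∈ S, y < p → ¬ p ∣ q.2)
    (hy : ∀ F : Finset ℕ, (∀ p ∈ F, y < p) → ∑ p ∈ F, G p < 1 / (8 * ((L.card : ℝ) + 1))) :
    ∃ t, ∀ q ∈ L, ∀ p ∈ S, ¬ p ∣ q.1 + q.2 * t := by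
  classical
  set J : ℝ := (L.card : ℝ) with hJ
  have hJ0 : 0 ≤ J := by positivity
  set K := ∑ q ∈ L, (q.1 + q.2) + 1 with hK
  set K' : ℝ := (J + 1) * (1 + K) with hK'
  have hK'pos : 0 < K' := by rw [hK']; positivity
  obtain ⟨N, hN⟩ := tailS G hsum (1 / (4 * K')) (by positivity)
  set X := N + 1 with hX
  have hX1 : 1 ≤ X := by omega
  have hXr : (0:ℝ) < X := by exact_mod_cast hX1
  have hle : ∀ q ∈ L, ∀ t, t < X → q.1 + q.2 * t ≤ K * X := by
    intro q hq t ht
    have a1 : q.1 + q.2 ≤ ∑ q ∈ L, (q.1 + q.2) :=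
      single_le_sum (f := fun q : ℕ × ℕ => q.1 + q.2) (fun _ _ => Nat.zero_le _) hq
    have a2 : q.2 * t ≤ q.2 * X := Nat.mul_le_mul_left _ ht.le
    have a3 : q.1 * 1 ≤ q.1 * X := Nat.mul_le_mul_left _ hX1
    have a4 : (q.1 + q.2) * X ≤ K * X := Nat.mul_le_mul_right _ (by omega)
    have a5 : (q.1 + q.2) * X = q.1 * X + q.2 * X := by ring
    omega
  by_contra hcon
  push Not at hcon
  let bad : ℕ → Finset ℕ := fun p => L.biUnion (fun q => (range X).filter (fun t => p ∣ q.1 + q.2 * t))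
  set P := (range (K * X + 1)).filter (fun p => p ∈ S ∧ y < p) with hP
  have hcover : range X ⊆ P.biUnion bad := by
    intro t ht
    rw [mem_range] at ht
    obtain ⟨q, hq, p, hpS, hp⟩ := hcon t
    have hpos : 0 < q.1 + q.2 * t := by have := (h2 q hq).1; omega
    have hpy : y < p := by
      by_contra hle'
      obtain ⟨d1, d2⟩ := h1 q hq p hpS (by omega)
      exact d2 ((Nat.dvd_add_left (d1.mul_right t)).1 hp)
    rw [mem_biUnion]
    refine ⟨p, ?_, ?_⟩
    · rw [hP, mem_filter, mem_range]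
      have := Nat.le_of_dvd hpos hp
      have := hle q hq t ht
      exact ⟨by omega, hpS, hpy⟩
    · simp only [bad, mem_biUnion, mem_filter, mem_range]
      exact ⟨q, hq, ht, hp⟩
  have hbad : ∀ p ∈ P, ((bad p).card : ℝ) ≤ J * ((X:ℝ) / p + 1) := by
    intro p hp
    rw [hP, mem_filter] at hp
    have : Fact p.Prime := ⟨hS p hp.2.1⟩
    calc ((bad p).card : ℝ) ≤ ∑ q ∈ L, (((range X).filter (fun t => p ∣ q.1 + q.2 * t)).card : ℝ) := by
          exact_mod_cast card_biUnion_le
      _ ≤ ∑ q ∈ L, ((X:ℝ) / p + 1) := by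
          apply sum_le_sum
          intro q hq
          apply cardCong p X (hS p hp.2.1).pos _ (filter_subset _ _)
          intro a ha b hb
          rw [mem_filter] at ha hb
          have hQ0 : (q.2 : ZMod p) ≠ 0 := by
            rw [Ne, ZMod.natCast_eq_zero_iff]
            exact (h2 q hq).2 p hp.2.1 hp.2.2
          have e1 := (ZMod.natCast_eq_zero_iff _ _).2 ha.2
          have e2 := (ZMod.natCast_eq_zero_iff _ _).2 hb.2
          push_cast at e1 e2
          have e3 : (q.2 : ZMod p) * a = q.2 * b := by linear_combination e1 - e2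
          exact (ZMod.natCast_eq_natCast_iff _ _ _).1 (mul_left_cancel₀ hQ0 e3)
      _ = _ := by rw [sum_const, nsmul_eq_mul]
  have hcard := (card_le_card hcover).trans card_biUnion_le
  rw [card_range] at hcard
  have hreal : (X:ℝ) ≤ ∑ p ∈ P, ((bad p).card : ℝ) := by exact_mod_cast hcard
  rw [← sum_filter_add_sum_filter_not P (fun p => p ≤ X)] at hreal
  have hs1 : ∑ p ∈ P.filter (fun p => p ≤ X), ((bad p).card : ℝ) ≤ 2 * J * X * (1 / (8 * (J + 1))) := by
    calc _ ≤ ∑ p ∈ P.filter (fun p => p ≤ X), (2 * J * X) * G p := by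
          apply sum_le_sum
          intro p hp
          rw [mem_filter] at hp
          have hpP := hp.1
          rw [hP, mem_filter] at hpP
          have hp0 : (0:ℝ) < p := by exact_mod_cast (hS p hpP.2.1).pos
          have hpX : (p:ℝ) ≤ X := by exact_mod_cast hp.2
          refine (hbad p hp.1).trans ?_
          rw [hgS p hpP.2.1]
          have : (1:ℝ) ≤ X / p := by rw [le_div_iff₀ hp0]; linarith
          calc J * ((X:ℝ) / p + 1) ≤ J * (X / p + X / p) := mul_le_mul_of_nonneg_left (by linarith) hJ0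
            _ = _ := by ring
      _ = 2 * J * X * ∑ p ∈ P.filter (fun p => p ≤ X), G p := by rw [mul_sum]
      _ ≤ _ := by
          apply mul_le_mul_of_nonneg_left _ (by positivity)
          apply (hy _ _).le
          intro p hp
          rw [mem_filter, hP, mem_filter] at hp
          exact hp.1.2.2
  have hs2 : ∑ p ∈ P.filter (fun p => ¬ p ≤ X), ((bad p).card : ℝ) ≤ K' * X * (1 / (4 * K')) := by
    calc _ ≤ ∑ p ∈ P.filter (fun p => ¬ p ≤ X), (K' * X) * G p := by
          apply sum_le_sum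
          intro p hp
          rw [mem_filter] at hp
          have hpP := hp.1
          rw [hP, mem_filter, mem_range] at hpP
          have hp0 : (0:ℝ) < p := by exact_mod_cast (hS p hpP.2.1).pos
          have hpK : (p:ℝ) ≤ K * X := by exact_mod_cast (by omega : p ≤ K * X)
          refine (hbad p hp.1).trans ?_
          rw [hgS p hpP.2.1]
          have : (1:ℝ) ≤ K * (X / p) := by
            rw [← mul_div_assoc, le_div_iff₀ hp0]; linarith
          have h3 : (X:ℝ) / p + 1 ≤ (1 + K) * (X / p) := by linarith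
          have h4 : (0:ℝ) ≤ (1 + K) * ((X:ℝ) / p) := by positivity
          calc J * ((X:ℝ) / p + 1) ≤ J * ((1 + K) * (X / p)) := mul_le_mul_of_nonneg_left h3 hJ0
            _ ≤ (J + 1) * ((1 + K) * (X / p)) := by linarith
            _ = _ := by rw [hK']; ring
      _ = K' * X * ∑ p ∈ P.filter (fun p => ¬ p ≤ X), G p := by rw [mul_sum]
      _ ≤ _ := by
          apply mul_le_mul_of_nonneg_left _ (by positivity)
          apply (hN _ _).le
          intro p hp
          rw [mem_filter] at hp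
          omega
  have e : K' * X * (1 / (4 * K')) = (X:ℝ) / 4 := by field_simp
  rw [e] at hs2
  have e2 : 2 * J * X * (1 / (8 * (J + 1))) ≤ X / 4 := by
    rw [mul_one_div, div_le_iff₀ (by positivity)]
    nlinarith
  linarith

end Pool.Agent.H576.Lin
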