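import Pool.Agent.H576P.Lin
open Finset
open Pool.Agent.H576.Pyth
namespace Pool.Agent.H576.Lin

theorem step (S : Set ℕ) (hS : ∀ p ∈ S, p.Prime) (G : ℕ → ℝ) (hgS : ∀ p ∈ S, G p = 1 / p)
    (hsum : Summable G) (M : ℕ) (hM : 0 < M) (s : Finset ℕ)
    (hs : ∀ v ∈ s, M ∣ v ∧ (∀ p ∈ S, ¬ p ∣ 1 + 2 * v) ∧ (∀ p ∈ S, ¬ p ∣ 1 + v)) :
    ∃ w, (M ∣ w ∧ (∀ p ∈ S, ¬ p ∣ 1 + 2 * w) ∧ (∀ p ∈ S, ¬ p ∣ 1 + w)) ∧
      ∀ v ∈ s, v < w ∧ ∀ p ∈ S, ¬ p ∣ 1 + v + w := by
  classical
  obtain ⟨N0, hN0⟩ := tailS G hsum (1 / (8 * (((s.card + 2 : ℕ) : ℝ) + 1))) (by positivity)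
  set y := N0 + M + 2 with hy
  set β := M * y.factorial with hβ
  have hβ0 : 0 < β := Nat.mul_pos hM (Nat.factorial_pos _)
  set N := s.sup id + 1 with hN
  have d1 : ∀ p ∈ S, p ≤ y → p ∣ β := fun p hp h =>
    (((hS p hp).dvd_factorial).2 h).trans (Dvd.intro_left _ rfl)
  have d2 : ∀ p ∈ S, y < p → ¬ p ∣ β := by
    intro p hp hyp hd
    have hpp := hS p hp
    rw [hβ, hpp.dvd_mul] at hd
    rcases hd with h | h
    · have := Nat.le_of_dvd hM h; omega
    · have := (hpp.dvd_factorial).1 h; omega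
  set L : Finset (ℕ × ℕ) := insert (1 + 2 * (β * N), 2 * β) (insert (1 + β * N, β)
    (s.image (fun v => (1 + v + β * N, β)))) with hL
  have hLc : L.card ≤ s.card + 2 := by
    rw [hL]
    have a1 := card_insert_le (1 + 2 * (β * N), 2 * β) (insert (1 + β * N, β) (s.image (fun v => (1 + v + β * N, β))))
    have a2 := card_insert_le (1 + β * N, β) (s.image (fun v => (1 + v + β * N, β)))
    have a3 := card_image_le (s := s) (f := fun v => (1 + v + β * N, β))
    omega
  have G1 : ∀ q ∈ L, ∀ p ∈ S, p ≤ y → p ∣ q.2 ∧ ¬ p ∣ q.1 := by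
    intro q hq p hp hpy
    have hd := d1 p hp hpy
    have hp2 := (hS p hp).two_le
    rw [hL, mem_insert, mem_insert, mem_image] at hq
    rcases hq with rfl | rfl | ⟨v, hv, rfl⟩
    · refine ⟨hd.mul_left _, fun h => ?_⟩
      have := (Nat.dvd_add_left ((hd.mul_right N).mul_left 2)).1 h
      have := Nat.le_of_dvd one_pos this
      omega
    · refine ⟨hd, fun h => ?_⟩
      have := (Nat.dvd_add_left (hd.mul_right N)).1 h
      have := Nat.le_of_dvd one_pos this
      omega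
    · refine ⟨hd, fun h => ?_⟩
      exact (hs v hv).2.2 p hp ((Nat.dvd_add_left (hd.mul_right N)).1 h)
  have G2 : ∀ q ∈ L, 0 < q.1 ∧ ∀ p ∈ S, y < p → ¬ p ∣ q.2 := by
    intro q hq
    rw [hL, mem_insert, mem_insert, mem_image] at hq
    rcases hq with rfl | rfl | ⟨v, hv, rfl⟩
    · refine ⟨by positivity, fun p hp hyp hd => ?_⟩
      rcases ((hS p hp).dvd_mul).1 hd with h | h
      · have := Nat.le_of_dvd (by norm_num) h; omega
      · exact d2 p hp hyp h
    · exact ⟨by positivity, fun p hp hyp hd => d2 p hp hyp hd⟩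
    · exact ⟨by positivity, fun p hp hyp hd => d2 p hp hyp hd⟩
  have G3 : ∀ F : Finset ℕ, (∀ p ∈ F, y < p) → ∑ p ∈ F, G p < 1 / (8 * ((L.card : ℝ) + 1)) := by
    intro F hF
    refine lt_of_lt_of_le (hN0 F (fun p hp => by have := hF p hp; omega)) ?_
    apply one_div_le_one_div_of_le (by positivity)
    have : (L.card : ℝ) ≤ ((s.card + 2 : ℕ) : ℝ) := by exact_mod_cast hLc
    linarith
  obtain ⟨t, ht⟩ := lin S hS G hgS hsum L y G1 G2 G3
  · refine ⟨β * (N + t), ⟨?_, ?_, ?_⟩, ?_⟩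
    · exact Dvd.dvd.mul_right (Dvd.intro _ rfl) _
    · intro p hp hd
      apply ht (1 + 2 * (β * N), 2 * β) (by rw [hL]; simp) p hp
      convert hd using 1
      ring
    · intro p hp hd
      apply ht (1 + β * N, β) (by rw [hL]; simp) p hp
      convert hd using 1
      ring
    · intro v hv
      constructor
      · have h1 : v ≤ s.sup id := Finset.le_sup (f := id) hv
        have h2 : N + t ≤ β * (N + t) := Nat.le_mul_of_pos_left _ hβ0
        omega
      · intro p hp hd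
        apply ht (1 + v + β * N, β) (by rw [hL]; simp only [mem_insert, mem_image]; exact Or.inr (Or.inr ⟨v, hv, rfl⟩)) p hp
        convert hd using 1
        ring

theorem mainL (S : Set ℕ) (hS : ∀ p ∈ S, p.Prime) (hsum : Summable (fun p : S => (1 : ℝ) / (p : ℕ)))
    (M : ℕ) (hM : 0 < M) {κ : Type*} (c : ℕ → κ)
    (hc : ∀ T u : ℕ, 0 < T → 0 < u → u ≡ 1 [MOD M] → (∀ p ∈ S, ¬ p ∣ u) → c (T * u) = c T) :
    ∃ f : ℕ → ℕ, StrictMono f ∧ (∀ i, 0 < f i) ∧ ∀ i j, c (f i + f j) = c 4 ∧ c (f i * f j) = c 4 := by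
  classical
  set G : ℕ → ℝ := S.indicator (fun p : ℕ => (1 : ℝ) / (p : ℕ)) with hg
  have hgsum : Summable G := summable_subtype_iff_indicator.1 hsum
  have hgS : ∀ p ∈ S, G p = 1 / p := fun p hp => by rw [hg, Set.indicator_of_mem hp]
  obtain ⟨v, hv, hr⟩ := exists_seq_of_forall_finset_exists
    (fun v : ℕ => M ∣ v ∧ (∀ p ∈ S, ¬ p ∣ 1 + 2 * v) ∧ (∀ p ∈ S, ¬ p ∣ 1 + v))
    (fun v w => v < w ∧ ∀ p ∈ S, ¬ p ∣ 1 + v + w)
    (fun s hs => step S hS G hgS hgsum M hM s hs)
  have md : ∀ a, M ∣ a → 1 + a ≡ 1 [MOD M] := by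
    intro a ha
    simpa using (Nat.ModEq.refl 1).add ((Nat.modEq_zero_iff_dvd).2 ha)
  refine ⟨fun i => 2 * (1 + 2 * v i), ?_, fun i => by positivity, ?_⟩
  · apply strictMono_nat_of_lt_succ
    intro n
    have := (hr n (n + 1) (Nat.lt_succ_self n)).1
    omega
  · have key : ∀ i j, i ≤ j → c (2 * (1 + 2 * v i) + 2 * (1 + 2 * v j)) = c 4 := by
      intro i j hij
      have e : 2 * (1 + 2 * v i) + 2 * (1 + 2 * v j) = 4 * (1 + v i + v j) := by ring
      rw [e]
      apply hc 4 _ (by norm_num) (by positivity)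
      · rw [add_assoc]; exact md _ (dvd_add (hv i).1 (hv j).1)
      · rcases hij.lt_or_eq with h | h
        · exact (hr i j h).2
        · intro p hp hd
          apply (hv i).2.1 p hp
          rw [← h] at hd
          convert hd using 1
          ring
    intro i j
    constructor
    · show c (2 * (1 + 2 * v i) + 2 * (1 + 2 * v j)) = c 4
      rcases le_total i j with h | h
      · exact key i j h
      · rw [add_comm]; exact key j i h
    · show c (2 * (1 + 2 * v i) * (2 * (1 + 2 * v j))) = c 4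
      have e : 2 * (1 + 2 * v i) * (2 * (1 + 2 * v j)) = 4 * ((1 + 2 * v i) * (1 + 2 * v j)) := by ring
      rw [e]
      apply hc 4 _ (by norm_num) (by positivity)
      · simpa using (md _ ((hv i).1.mul_left 2)).mul (md _ ((hv j).1.mul_left 2))
      · intro p hp hd
        rcases ((hS p hp).dvd_mul).1 hd with h | h
        · exact (hv i).2.1 p hp h
        · exact (hv j).2.1 p hp h

end Pool.Agent.H576.Lin
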